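import Pool.Agent.R117.MSR.Vectors
import Pool.Agent.R117.MSR.Ramsey

/-!
# Steiner triple systems of the same order with different minimum semidefinite ranks

For every `N` there are an order `v` and two Steiner triple systems of order `v` such that the
minimum semidefinite ranks of their incidence graphs differ by more than `N`. In particular this
rank does not depend on the order alone.

The systems are a Bose system, where the rank is at most the number of blocks plus nine, and a
projective system `PG(n,2)`, where the difference between the rank and the number of blocks is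
unbounded by Schur's theorem.
-/

set_option autoImplicit false

namespace Pool.Agent.Results.MP_2ade00_co.RankGap

open Matrix
open scoped ComplexOrder

/-- `B` is the set of blocks of a Steiner triple system on the point set `X`: the blocks have three
points and any two distinct points lie in exactly one block. -/
def IsSTS {X : Type} [DecidableEq X] (B : Finset (Finset X)) : Prop :=
  (∀ b ∈ B, b.card = 3) ∧ ∀ x y : X, x ≠ y → ∃! b, b ∈ B ∧ x ∈ b ∧ y ∈ b

/-- The incidence graph: the vertices are the points and the blocks, and the edges join the points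
to the blocks containing them. -/
def incidenceGraph {X : Type} [DecidableEq X] (B : Finset (Finset X)) :
    SimpleGraph (X ⊕ {b // b ∈ B}) where
  Adj p q := match p, q with
    | Sum.inl x, Sum.inr b => x ∈ b.1
    | Sum.inr b, Sum.inl x => x ∈ b.1
    | _, _ => False
  symm := ⟨by
    intro p q h
    match p, q with
    | Sum.inl x, Sum.inr b => exact h
    | Sum.inr b, Sum.inl x => exact h
    | Sum.inl x, Sum.inl y => exact h
    | Sum.inr b, Sum.inr c => exact h⟩
  loopless := ⟨by
    intro p h
    match p with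
    | Sum.inl x => exact h
    | Sum.inr b => exact h⟩

/-- The minimum semidefinite rank of a graph: the least rank of a complex Hermitian positive
semidefinite matrix whose entries outside the diagonal are nonzero exactly at the edges (there is
always such a matrix). -/
noncomputable def msr {V : Type} [Fintype V] (G : SimpleGraph V) : ℕ :=
  sInf {r : ℕ | ∃ A : Matrix V V ℂ, A.PosSemidef ∧
    (∀ i j, i ≠ j → (A i j ≠ 0 ↔ G.Adj i j)) ∧ A.rank = r}

/-- Two systems of blocks on the same point set are isomorphic: some permutation of the points maps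
the blocks of the first onto the blocks of the second. -/
def Isomorphic {X : Type} [DecidableEq X] (B C : Finset (Finset X)) : Prop :=
  ∃ σ : Equiv.Perm X, C = B.image (fun b => b.image σ)

theorem graph_eq {X : Type} [DecidableEq X] (B : Finset (Finset X)) :
    incidenceGraph B = Pool.Agent.R117.MSR.incidenceGraph B := by
  ext p q
  match p, q with
  | Sum.inl x, Sum.inr b => exact Iff.rfl
  | Sum.inr b, Sum.inl x => exact Iff.rfl
  | Sum.inl x, Sum.inl y => exact Iff.rfl
  | Sum.inr b, Sum.inr c => exact Iff.rfl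

section Transport

open Pool.Agent.R117.MSR (NegOn Mono)

variable {X Y : Type} [DecidableEq X] [DecidableEq Y]

/-- the blocks carried over by a bijection of the points -/
def tr (e : X ≃ Y) (B : Finset (Finset X)) : Finset (Finset Y) := B.image (fun b => b.image e)

theorem mem_tr {e : X ≃ Y} {B : Finset (Finset X)} {c : Finset Y} :
    c ∈ tr e B ↔ c.image e.symm ∈ B := by
  unfold tr
  rw [Finset.mem_image]
  constructor
  · rintro ⟨b, hb, rfl⟩
    rw [Finset.image_image]
    simpa using hb
  · intro h
    refine ⟨_, h, ?_⟩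
    rw [Finset.image_image]
    simp

theorem tr_isSTS {e : X ≃ Y} {B : Finset (Finset X)} (h : IsSTS B) : IsSTS (tr e B) := by
  constructor
  · intro c hc
    have h1 := h.1 _ (mem_tr.1 hc)
    rwa [Finset.card_image_of_injective _ e.symm.injective] at h1
  · intro x y hxy
    obtain ⟨b, ⟨hb, hx, hy⟩, hu⟩ := h.2 (e.symm x) (e.symm y) (fun h => hxy (e.symm.injective h))
    refine ⟨b.image e, ⟨?_, ?_, ?_⟩, ?_⟩
    · rw [mem_tr, Finset.image_image]
      simpa using hb
    · exact Finset.mem_image.2 ⟨_, hx, by simp⟩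
    · exact Finset.mem_image.2 ⟨_, hy, by simp⟩
    · rintro c ⟨hc, hxc, hyc⟩
      have h2 := hu (c.image e.symm) ⟨mem_tr.1 hc, Finset.mem_image_of_mem _ hxc,
        Finset.mem_image_of_mem _ hyc⟩
      rw [← h2, Finset.image_image]
      simp

theorem tr_negOn {κ : Type} [Fintype κ] {e : X ≃ Y} {B : Finset (Finset X)} {u : X → κ → ℝ}
    (h : NegOn B u) : NegOn (tr e B) (fun y => u (e.symm y)) := by
  intro c hc x y z hx hy hz hxy hyz hxz
  exact h _ (mem_tr.1 hc) _ _ _ (Finset.mem_image_of_mem _ hx) (Finset.mem_image_of_mem _ hy)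
    (Finset.mem_image_of_mem _ hz) (fun h => hxy (e.symm.injective h))
    (fun h => hyz (e.symm.injective h)) (fun h => hxz (e.symm.injective h))

theorem tr_mono {K : ℕ} {e : X ≃ Y} {B : Finset (Finset X)} (h : Mono K B) :
    Mono K (tr e B) := by
  intro col
  obtain ⟨b, hb, hcol⟩ := h (fun x => col (e x))
  refine ⟨b.image e, ?_, ?_⟩
  · rw [mem_tr, Finset.image_image]
    simpa using hb
  · intro x hx y hy
    obtain ⟨x', hx', rfl⟩ := Finset.mem_image.1 hx
    obtain ⟨y', hy', rfl⟩ := Finset.mem_image.1 hy
    exact hcol x' hx' y' hy'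

end Transport

/-- For every `N` there are an order `v` and two nonisomorphic Steiner triple systems of order `v`
whose incidence graphs have minimum semidefinite ranks that differ by more than `N`. -/
theorem result : ∀ N : ℕ, ∃ (v : ℕ) (B C : Finset (Finset (Fin v))), IsSTS B ∧ IsSTS C ∧
    ¬ Isomorphic B C ∧ msr (incidenceGraph B) + N < msr (incidenceGraph C) := by
  intro N
  obtain ⟨K, hK⟩ := Pool.Agent.R117.MSR.msr_lower (N + 10)
  obtain ⟨n0, hn0⟩ := Pool.Agent.R117.MSR.schur K
  set n : ℕ := 2 * (n0 + 1) with hn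
  set v : ℕ := 2 ^ n - 1 with hv
  have h4 : 2 ^ n = 4 ^ (n0 + 1) := by rw [hn, pow_mul]; norm_num
  obtain ⟨m, hm⟩ : 3 ∣ v := by
    rw [hv, h4]
    have := Nat.sub_dvd_pow_sub_pow 4 1 (n0 + 1)
    simpa using this
  have hpos : 1 ≤ 2 ^ n := Nat.one_le_two_pow
  have hodd : m % 2 = 1 := by
    have h5 : 2 ^ n = 3 * m + 1 := by omega
    have h6 : 2 ^ n % 2 = 0 := by
      rw [h4, show (4 : ℕ) ^ (n0 + 1) = 2 * (2 * 4 ^ n0) by ring]
      omega
    omega
  have : NeZero m := ⟨by omega⟩
  -- one half
  have hh : (2 : ZMod m) * (((m + 1) / 2 : ℕ) : ZMod m) = 1 := by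
    have h5 : 2 * ((m + 1) / 2) = m + 1 := by omega
    have h6 : ((2 * ((m + 1) / 2) : ℕ) : ZMod m) = ((m + 1 : ℕ) : ZMod m) := by rw [h5]
    push_cast at h6
    rw [h6]
    simp
  obtain ⟨u, hu⟩ := Pool.Agent.R117.MSR.exists_vectors hh
  have hB0 := Pool.Agent.R117.MSR.bose_isSTS hh
  have hC0 := Pool.Agent.R117.MSR.lines_isSTS n
  have e1 : (ZMod m × Fin 3) ≃ Fin v := Fintype.equivFinOfCardEq (by
    rw [Fintype.card_prod, ZMod.card, Fintype.card_fin, hm, mul_comm])
  have e2 : Pool.Agent.R117.MSR.Pt n ≃ Fin v := Fintype.equivFinOfCardEq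
    (Pool.Agent.R117.MSR.card_pt n)
  have hB : IsSTS (tr e1 (Pool.Agent.R117.MSR.tauBlocks (Pool.Agent.R117.MSR.bose
    (((m + 1) / 2 : ℕ) : ZMod m)))) := tr_isSTS hB0
  have hC : IsSTS (tr e2 (Pool.Agent.R117.MSR.lines n)) := tr_isSTS hC0
  refine ⟨v, _, _, hB, hC, ?_, ?_⟩
  all_goals
    have h1 := Pool.Agent.R117.MSR.msr_le_of_vectors hB _ (tr_negOn hu)
    have h2 := hK (Fin v) _ hC (tr_mono (hn0 n (by omega)))
    have h3 := Pool.Agent.R117.MSR.IsSTS.card hB
    have h5 := Pool.Agent.R117.MSR.IsSTS.card hC
    have h6 : Fintype.card (Fin 3 ⊕ Fin 3 ⊕ Fin 3) = 9 := rfl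
    rw [h6] at h1
  · intro hiso
    have h7 := Pool.Agent.R117.MSR.msr_eq_of_isomorphic hiso
    omega
  · rw [graph_eq, graph_eq]
    show Pool.Agent.R117.MSR.msr _ + N < Pool.Agent.R117.MSR.msr _
    omega

end Pool.Agent.Results.MP_2ade00_co.RankGap
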